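import Pool.Agent.MP_77f003_co.H51.NSpec

/-!
Recentring a chain of cuts so that a limit cut with a small stabiliser stays near a level of the
modular function.
-/

namespace Pool.Agent.MP_77f003_co.H49

open SimpleGraph MulAction Filter

section Grp

variable {Γ : Type} [Group Γ]

/-- The size of `H` measured in units of `K`. -/
noncomputable def recR (H K : Subgroup Γ) : ℚ := (K.relIndex H : ℚ) / H.relIndex K

theorem recR_eq {M H K : Subgroup Γ} (h1 : M ≤ H) (h2 : M ≤ K) (h3 : M.relIndex H ≠ 0) :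
    recR H K = (M.relIndex H : ℚ) / M.relIndex K := by
  have e1 := Subgroup.relIndex_mul_relIndex M (H ⊓ K) H (le_inf h1 h2) inf_le_left
  have e2 := Subgroup.relIndex_mul_relIndex M (H ⊓ K) K (le_inf h1 h2) inf_le_right
  rw [Subgroup.inf_relIndex_left] at e1
  rw [Subgroup.inf_relIndex_right] at e2
  have e3 : (M.relIndex (H ⊓ K) : ℚ) ≠ 0 := by
    intro h
    rw [Nat.cast_eq_zero] at h
    rw [h, zero_mul] at e1
    exact h3 e1.symm
  rw [recR, ← e1, ← e2]
  push_cast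
  rw [mul_div_mul_left _ _ e3]

theorem recR_mul {H K L : Subgroup Γ} (h1 : H.relIndex K ≠ 0) (h2 : K.relIndex H ≠ 0)
    (h3 : L.relIndex K ≠ 0) : recR H K * recR K L = recR H L := by
  have k1 : (H ⊓ K ⊓ L).relIndex K ≠ 0 := Subgroup.relIndex_inf_ne_zero
    (Subgroup.relIndex_inf_ne_zero h1 (by simp)) h3
  have k2 : (H ⊓ K ⊓ L).relIndex H ≠ 0 := Subgroup.relIndex_ne_zero_trans k1 h2
  rw [recR_eq (M := H ⊓ K ⊓ L) (inf_le_left.trans inf_le_left) (inf_le_left.trans inf_le_right) k2,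
    recR_eq (M := H ⊓ K ⊓ L) (inf_le_left.trans inf_le_right) inf_le_right k1,
    recR_eq (M := H ⊓ K ⊓ L) (inf_le_left.trans inf_le_left) inf_le_right k2]
  have : ((H ⊓ K ⊓ L).relIndex K : ℚ) ≠ 0 := Nat.cast_ne_zero.2 k1
  field_simp

theorem recR_le {H K : Subgroup Γ} (h : H ≤ K) : recR K H = H.relIndex K := by
  rw [recR, Subgroup.relIndex_eq_one.2 h]
  simp

theorem recR_smul {X Y : Type} [MulAction Γ X] [MulAction Γ Y] (g : Γ) (x : X) (y : Y) :
    recR (stabilizer Γ (g • x)) (stabilizer Γ (g • y)) =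
      recR (stabilizer Γ x) (stabilizer Γ y) := by
  have := (MulAut.conj g).injective
  simp only [recR, stabilizer_smul_eq_stabilizer_map_conj]
  rw [Subgroup.relIndex_map_map_of_injective _ _ this,
    Subgroup.relIndex_map_map_of_injective _ _ this]

theorem rec_ri {X : Type} [MulAction Γ X] (K : Subgroup Γ) (y : X) :
    (stabilizer Γ y).relIndex K = (orbit K y).ncard :=
  index_stabilizer K y

theorem rec_tu {W : Type} [MulAction Γ W] (o : W) (htr : ∀ x y : W, ∃ g : Γ, g • x = y)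
    (fin : ∀ y : W, {z | ∃ g : Γ, g • o = o ∧ g • y = z}.Finite)
    (hcard : ∀ y : W, {z | ∃ g : Γ, g • o = o ∧ g • y = z}.ncard =
      {z | ∃ g : Γ, g • y = y ∧ g • o = z}.ncard) : TU Γ o := by
  refine ⟨htr, ?_⟩
  let R : W → Set W := fun y => {z | ∃ g : Γ, g • o = o ∧ g • y = z}
  let S : W → Set W := fun y => {z | ∃ g : Γ, g • y = o ∧ g • o = z}
  have self : ∀ y, y ∈ R y := fun y => ⟨1, one_smul _ _, one_smul _ _⟩
  have SR : ∀ y z, z ∈ S y → S y = R z := by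
    rintro y z ⟨φ, h1, h2⟩
    ext w
    constructor
    · rintro ⟨ψ, h3, h4⟩
      refine ⟨ψ * φ⁻¹, ?_, ?_⟩
      · rw [mul_smul, inv_smul_eq_iff.2 h1.symm, h3]
      · rw [mul_smul, inv_smul_eq_iff.2 h2.symm, h4]
    · rintro ⟨ψ, h3, h4⟩
      refine ⟨ψ * φ, ?_, ?_⟩
      · rw [mul_smul, h1, h3]
      · rw [mul_smul, h2, h4]
  have Sne : ∀ y, ∃ z, z ∈ S y := fun y => by
    obtain ⟨φ, h⟩ := htr y o
    exact ⟨φ • o, φ, h, rfl⟩
  have Ssym : ∀ y z, z ∈ S y → y ∈ S z := by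
    rintro y z ⟨φ, h1, h2⟩
    exact ⟨φ⁻¹, inv_smul_eq_iff.2 h2.symm, inv_smul_eq_iff.2 h1.symm⟩
  have RR : ∀ y z, R z = R y ↔ z ∈ R y := fun y z => ⟨fun h => h ▸ self z, fun h => by
    obtain ⟨w, hw⟩ := Sne y
    have h1 := SR w y (Ssym _ _ hw)
    rw [← h1, SR w z (h1 ▸ h)]⟩
  have SS : ∀ y z, S z = R y ↔ z ∈ S y := fun y z =>
    ⟨fun h => Ssym _ _ (h ▸ self y), fun h => SR _ _ (Ssym _ _ h)⟩
  have card : ∀ y, (S y).ncard = (R y).ncard := fun y => by
    obtain ⟨φ, h⟩ := htr y o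
    refine Eq.trans ?_ (hcard y).symm
    rw [← Set.ncard_image_of_injective {z | ∃ g : Γ, g • y = y ∧ g • o = z}
      (MulAction.injective φ)]
    refine congrArg _ (Set.ext fun z => ⟨?_, ?_⟩)
    · rintro ⟨ψ, h3, h4⟩
      refine ⟨φ⁻¹ • z, ⟨φ⁻¹ * ψ, ?_, ?_⟩, smul_inv_smul φ z⟩
      · rw [mul_smul, h3, inv_smul_eq_iff.2 h.symm]
      · rw [mul_smul, h4]
    · rintro ⟨_, ⟨ψ, h3, rfl⟩, rfl⟩
      exact ⟨φ * ψ, by rw [mul_smul, h3, h], mul_smul _ _ _⟩
  have ex : ∀ c, Nonempty ({y // S y = c} ≃ {z // R z = c}) := fun c => by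
    by_cases hc : ∃ y, R y = c
    · obtain ⟨y, rfl⟩ := hc
      obtain ⟨w, hw⟩ := Sne y
      have : Finite (S y) := (SR y w hw ▸ fin w : (S y).Finite)
      have : Finite (R y) := fin y
      obtain ⟨e⟩ := Finite.card_eq.1 (card y : Nat.card (S y) = Nat.card (R y))
      exact ⟨((Equiv.subtypeEquivRight (SS y)).trans e).trans (Equiv.subtypeEquivRight (RR y)).symm⟩
    · have : IsEmpty {z // R z = c} := ⟨fun z => hc ⟨z.1, z.2⟩⟩
      have : IsEmpty {y // S y = c} := ⟨fun y => by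
        obtain ⟨w, hw⟩ := Sne y.1
        exact hc ⟨w, (SR _ _ hw).symm.trans y.2⟩⟩
      exact ⟨Equiv.equivOfIsEmpty _ _⟩
  refine ⟨Equiv.ofFiberEquiv fun c => (ex c).some, fun y => ?_⟩
  have h1 := Equiv.ofFiberEquiv_map (fun c => (ex c).some) y
  obtain ⟨φ, h2, h3⟩ : Equiv.ofFiberEquiv (fun c => (ex c).some) y ∈ S y := h1 ▸ self _
  exact ⟨φ, h3, h2⟩

end Grp

variable {V : Type} {G : SimpleGraph V}

/-- Groups with finite orbits containing the stabiliser of a pair. -/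
def RecGood (K : Subgroup (G ≃g G)) : Prop :=
  FinOrb K ∧ ∃ p : V × V, stabilizer (G ≃g G) p ≤ K

theorem RecGood.ne {H K : Subgroup (G ≃g G)} (hH : RecGood H) (hK : RecGood K) :
    H.relIndex K ≠ 0 := by
  obtain ⟨p, hp⟩ := hH.2
  refine mt (Subgroup.relIndex_eq_zero_of_le_left hp) ?_
  rw [rec_ri]
  refine (Set.ncard_pos ?_).2 ⟨p, mem_orbit_self p⟩ |>.ne'
  refine ((hK.1 p.1).prod (hK.1 p.2)).subset ?_
  rintro _ ⟨g, rfl⟩
  exact ⟨⟨g, rfl⟩, g, rfl⟩

theorem RecGood.mul {H K L : Subgroup (G ≃g G)} (hH : RecGood H) (hK : RecGood K)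
    (hL : RecGood L) : recR H K * recR K L = recR H L :=
  recR_mul (hH.ne hK) (hK.ne hH) (hL.ne hK)

theorem RecGood.pos {H K : Subgroup (G ≃g G)} (hH : RecGood H) (hK : RecGood K) :
    0 < recR H K :=
  div_pos (Nat.cast_pos.2 (Nat.pos_of_ne_zero (hK.ne hH)))
    (Nat.cast_pos.2 (Nat.pos_of_ne_zero (hH.ne hK)))

theorem rec_le1 (p : V × V) : stabilizer (G ≃g G) p ≤ stabilizer (G ≃g G) p.1 :=
  fun _ h => congrArg Prod.fst h

theorem rec_swap (p : V × V) : stabilizer (G ≃g G) p.swap = stabilizer (G ≃g G) p := by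
  ext g
  simp only [mem_stabilizer_iff, Prod.ext_iff]
  exact and_comm

variable [Fact G.Connected] [G.LocallyFinite]

theorem rec_good1 (x : V) : RecGood (stabilizer (G ≃g G) x) :=
  ⟨finOrb_of (x := x) ((Set.finite_singleton x).subset (by rintro _ ⟨ψ, rfl⟩; exact ψ.2)),
    (x, x), rec_le1 _⟩

theorem rec_good2 (p : V × V) : RecGood (stabilizer (G ≃g G) p) :=
  ⟨(rec_good1 p.1).1.mono (rec_le1 p), p, le_rfl⟩

variable (G) in
/-- The modular size of the stabiliser of a point or a pair. -/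
noncomputable def recMu {X : Type} [MulAction (G ≃g G) X] (o : V) (x : X) : ℚ :=
  recR (stabilizer (G ≃g G) x) (stabilizer (G ≃g G) o)

theorem recMu_smul {X : Type} [MulAction (G ≃g G) X] (o : V) (g : G ≃g G) (x : X)
    (h : RecGood (stabilizer (G ≃g G) (g • x))) :
    recMu G o (g • x) = recMu G o x * recMu G o (g • o) := by
  rw [recMu, ← h.mul (rec_good1 (g • o)) (rec_good1 o), recR_smul]
  rfl

omit [Fact G.Connected] [G.LocallyFinite] in
theorem recMu_self (o : V) : recMu G o o = 1 := by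
  rw [recMu, recR_le le_rfl]
  simp

theorem recMu_pos (o x : V) : 0 < recMu G o x := (rec_good1 x).pos (rec_good1 o)

variable (G) in
/-- The kernel of the modular function. -/
def recK (o : V) : Subgroup (G ≃g G) where
  carrier := {g | recMu G o (g • o) = 1}
  one_mem' := by simpa using recMu_self o
  mul_mem' := fun {a b} ha hb => by
    change recMu G o ((a * b) • o) = 1
    rw [mul_smul, recMu_smul o a _ (rec_good1 _), ha, hb, one_mul]
  inv_mem' := fun {a} ha => by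
    have := recMu_smul o a (a⁻¹ • o) (rec_good1 _)
    rw [smul_inv_smul, recMu_self, ha, mul_one] at this
    exact this.symm

theorem recK_mem {o x : V} {g : G ≃g G} (h : recMu G o (g • x) = recMu G o x) : g ∈ recK G o := by
  rw [recMu_smul o g x (rec_good1 _)] at h
  exact (mul_eq_left₀ (recMu_pos o x).ne').1 h

theorem recK_tu (o : V) : TU (recK G o) (bp (recK G o) o) := by
  have key : ∀ x y : orbit (recK G o) o, Subtype.val ''
      {z | ∃ g : recK G o, g • x = x ∧ g • y = z} = orbit (stabilizer (G ≃g G) x.1) y.1 := by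
    intro x y
    ext z
    constructor
    · rintro ⟨_, ⟨g, h1, rfl⟩, rfl⟩
      exact ⟨⟨g.1, congrArg Subtype.val h1⟩, rfl⟩
    · rintro ⟨g, rfl⟩
      exact ⟨_, ⟨⟨g.1, recK_mem (congrArg (recMu G o) g.2)⟩, Subtype.ext g.2, rfl⟩, rfl⟩
  refine rec_tu _ (fun x y => exists_smul_eq _ x y) (fun y => ?_) fun y => ?_
  · refine Set.Finite.of_finite_image ?_ Subtype.val_injective.injOn
    rw [key]
    exact (rec_good1 _).1 _
  · rw [← Set.ncard_image_of_injective _ Subtype.val_injective, key,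
      ← Set.ncard_image_of_injective {z | ∃ g : recK G o, g • y = y ∧ g • bp _ o = z}
        Subtype.val_injective, key, ← rec_ri, ← rec_ri]
    obtain ⟨_, g, rfl⟩ := y
    have h : recMu G o (g.1 • o) = 1 := g.2
    rw [recMu, recR, div_eq_one_iff_eq
      (Nat.cast_ne_zero.2 ((rec_good1 _).ne (rec_good1 _))), Nat.cast_inj] at h
    exact h.symm

theorem rec_near (ht : VT G) (o : V) {F : Set ℚ} (hF : F.Finite) :
    ∃ D, ∀ x : V, recMu G o x ∈ F → Near G (recK G o) o D x := by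
  have : ∀ q : ℚ, ∃ D, ∀ x : V, recMu G o x = q → ∃ φ ∈ recK G o, G.dist (φ o) x ≤ D := by
    intro q
    by_cases h : ∃ y : V, recMu G o y = q
    · obtain ⟨y, hy⟩ := h
      refine ⟨G.dist o y, fun x hx => ?_⟩
      obtain ⟨φ, rfl⟩ := ht y x
      exact ⟨φ, recK_mem (x := y) (hx.trans hy.symm), (dist_iso φ o y).le⟩
    · exact ⟨0, fun x hx => absurd ⟨x, hx⟩ h⟩
  choose D hD using this
  obtain ⟨b, hb⟩ := (hF.image D).bddAbove
  refine ⟨b, fun x hx => ?_⟩
  obtain ⟨φ, h1, h2⟩ := hD _ x rfl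
  exact ⟨φ, h1, h2.trans (hb ⟨_, hx, rfl⟩)⟩

theorem rec_end (ht : VT G) (o : V) (p : V × V) (hp : G.dist p.1 p.2 ≤ 1) :
    ∃ k : ℕ, k ≤ (G.degree o + 1) ^ 1 ∧ recMu G o p.1 = k * recMu G o p := by
  refine ⟨(stabilizer (G ≃g G) p).relIndex (stabilizer (G ≃g G) p.1), ?_, ?_⟩
  · rw [rec_ri]
    refine le_trans ?_ (card_ball_le (fun v => (degree_eq ht v o).le) p.1 1)
    rw [← Set.ncard_coe_finset,
      ← Set.ncard_image_of_injective (ball G p.1 1 : Set V) (Prod.mk_right_injective p.1)]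
    refine Set.ncard_le_ncard ?_ ((Finset.finite_toSet _).image _)
    rintro _ ⟨g, rfl⟩
    have e : g.1 p.1 = p.1 := g.2
    refine ⟨g.1 p.2, ?_, Prod.ext e.symm rfl⟩
    have := dist_iso g.1 p.1 p.2
    rw [e] at this
    exact mem_ball.2 (this.trans_le hp)
  · rw [← recR_le (rec_le1 p)]
    exact ((rec_good1 _).mul (rec_good2 p) (rec_good1 o)).symm

theorem rec_chain (ht : VT G) (o : V) {N u v A} (h : Lim G N u v A) :
    ∃ u' v' A', Lim G N u' v' A' ∧
      ∀ j, ∀ p ∈ cb G 1 (A' j), recMu G o (u', v') ≤ recMu G o p := by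
  obtain ⟨w, hw, hT⟩ : ∃ w, G.dist o w ≤ 1 ∧ {B ∈ N | o ∈ B ∧ w ∉ B ∧
      ∀ p ∈ cb G 1 B, recMu G o (o, w) ≤ recMu G o p}.Infinite := by
    by_contra hc
    push Not at hc
    obtain ⟨k, hk⟩ := (((finite_ball (G := G) o 1).biUnion hc).image
      fun B => (cb G 1 B).ncard).bddAbove
    refine Set.infinite_range_of_injective h.mono.injective
      ((finite_tight (G := G) k u v ∅).subset ?_)
    rintro _ ⟨j, rfl⟩
    obtain ⟨a1, a2, a3⟩ := h.mem j
    refine ⟨(h.eff _ a1).2, a2, a3, by simp, h.fin a1, ?_⟩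
    obtain ⟨e, e1, e2⟩ := Set.exists_min_image _ (recMu G o) (h.fin a1)
      ⟨(u, v), a2, a3, (dist_adj h.adj).le⟩
    obtain ⟨φ, hφ⟩ := ht o e.1
    have he : φ • (o, φ.symm e.2) = e := Prod.ext hφ (φ.apply_symm_apply _)
    have := hk ⟨φ ⁻¹' A j, Set.mem_biUnion (x := φ.symm e.2) (by
      have := e1.2.2
      rwa [← dist_iso φ.symm, ← hφ, RelIso.symm_apply_apply] at this)
      ⟨h.fam.inv _ a1 φ, by simpa [hφ] using e1.1, by simpa using e1.2.1, fun p hp => by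
        rw [cb_pre] at hp
        have := e2 (φ • p) hp
        rw [← he, recMu_smul o φ _ (rec_good2 _), recMu_smul o φ _ (rec_good2 _)] at this
        exact le_of_mul_le_mul_right this (recMu_pos _ _)⟩, rfl⟩
    simpa [(cb_pre' _ _ _).1] using this
  let f : ℕ → Set V := fun n => hT.natEmbedding _ n
  have hf : ∀ n, f n ∈ N ∧ o ∈ f n ∧ w ∉ f n ∧
      ∀ p ∈ cb G 1 (f n), recMu G o (o, w) ≤ recMu G o p := fun n => (hT.natEmbedding _ n).2
  have ha : G.Adj o w := dist_eq_one_iff_adj.1 <| le_antisymm hw <| Nat.pos_of_ne_zero fun h =>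
    (hf 0).2.2.1 (eq_of_dist h ▸ (hf 0).2.1)
  obtain ⟨g, hg | hg⟩ := exists_increasing_or_nonincreasing_subseq (· < ·) f
  · exact ⟨o, w, fun n => f (g n), ⟨h.fam, h.eff, ha, hg, fun n =>
      ⟨(hf _).1, (hf _).2.1, (hf _).2.2.1⟩⟩, fun n => (hf _).2.2.2⟩
  · refine ⟨w, o, fun n => (f (g n))ᶜ, ⟨h.fam, h.eff, ha.symm, fun m n k => ?_,
      fun n => ⟨h.fam.compl _ (hf _).1, (hf _).2.2.1, fun h => h (hf _).2.1⟩⟩, fun n p hp => ?_⟩
    · have ne : f (g m) ≠ f (g n) := fun e =>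
        k.ne (g.injective ((hT.natEmbedding _).injective (Subtype.ext e)))
      refine compl_lt_compl_iff_lt.2 (lt_of_le_of_ne ?_ ne.symm)
      rcases h.fam.comp (hf (g m)).1 (hf (g n)).1 (hf _).2.1 (hf _).2.1 (hf _).2.2.1
        (hf _).2.2.1 with e | e
      exacts [absurd (lt_of_le_of_ne e ne) (hg m n k), e]
    · rw [cb_compl] at hp
      obtain ⟨q, hq, rfl⟩ := hp
      have := (hf (g n)).2.2.2 q hq
      rwa [recMu, recMu, ← rec_swap q, ← rec_swap (o, w)] at this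

theorem recSpec : RecSpec := by
  intro V G _ _ ht N u v A h
  obtain ⟨u', v', A', h', k⟩ := rec_chain ht u h
  refine ⟨u', v', A', h', fun hf => ?_⟩
  have hP : RecGood (stab (⋃ j, A' j) : Subgroup (G ≃g G)) :=
    ⟨hf, (u', v'), fun φ hφ => (h'.pair (congrArg Prod.fst hφ) (congrArg Prod.snd hφ) 0).1⟩
  set m := recR (stab (⋃ j, A' j) : Subgroup (G ≃g G)) (stabilizer (G ≃g G) u) with hm
  have n0 : 0 < recMu G u (u', v') := (rec_good2 _).pos (rec_good1 _)
  obtain ⟨I, hI⟩ := exists_nat_ge (m / recMu G u (u', v'))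
  obtain ⟨D, hD⟩ := rec_near ht u (((Set.finite_Iic ((G.degree u + 1) ^ 1)).prod
    (Set.finite_Iic I)).image fun q : ℕ × ℕ => (q.1 : ℚ) * (m / q.2))
  refine ⟨recK G u, u, D, recK_tu u, fun p hp => ?_⟩
  obtain ⟨j, hj⟩ := Set.mem_iUnion.1 hp.1
  have nm : ∀ i, p.2 ∉ A' i := fun i hi => hp.2.1 (Set.mem_iUnion.2 ⟨i, hi⟩)
  have le : stabilizer (G ≃g G) p ≤ stab (⋃ j, A' j) := by
    intro φ hφ x
    have e : ∀ i, φ x ∈ A' (max i j) ↔ x ∈ A' (max i j) := fun i =>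
      h'.fam.pair (h'.mem _).1 (h'.mono.monotone (le_max_right i j) hj) (nm _)
        (congrArg Prod.fst hφ) (congrArg Prod.snd hφ) x
    simp only [Set.mem_iUnion]
    exact ⟨fun ⟨i, hi⟩ => ⟨_, (e i).1 (h'.mono.monotone (le_max_left i j) hi)⟩,
      fun ⟨i, hi⟩ => ⟨_, (e i).2 (h'.mono.monotone (le_max_left i j) hi)⟩⟩
  have e1 := hP.mul (rec_good2 p) (rec_good1 u)
  rw [recR_le le, ← hm] at e1
  have e2 := (rec_good2 p).ne hP
  generalize (stabilizer (G ≃g G) p).relIndex (stab (⋃ j, A' j)) = i at e1 e2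
  have e3 : (0 : ℚ) < i := Nat.cast_pos.2 (Nat.pos_of_ne_zero e2)
  have e4 : recMu G u p = m / i := by
    rw [eq_div_iff e3.ne', mul_comm]
    exact e1
  have e5 : i ≤ I := by
    have := k j p ⟨hj, nm j, hp.2.2⟩
    rw [e4, le_div_iff₀ e3, mul_comm, ← le_div_iff₀ n0] at this
    exact_mod_cast this.trans hI
  constructor
  · obtain ⟨c, c1, c2⟩ := rec_end ht u p hp.2.2
    exact hD _ ⟨(c, i), ⟨c1, e5⟩, by rw [c2, e4]⟩
  · obtain ⟨c, c1, c2⟩ := rec_end ht u p.swap (by rw [dcomm]; exact hp.2.2)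
    refine hD _ ⟨(c, i), ⟨c1, e5⟩, ?_⟩
    simp only [← e4]
    rw [recMu, recMu, rec_swap] at c2
    exact c2.symm

end Pool.Agent.MP_77f003_co.H49
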